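import Mathlib
import Pool.Agent.Y740.Main1
import Pool.Agent.Y740.HtNF
import Pool.Agent.Y740.Z.Stm

set_option autoImplicit false

/-!
# Heights of the values of algebraic functions
-/

namespace Pool.Agent.Y708.ZF

open Real NumberField Height Module Polynomial Pool.Agent.Y740

/-- a root of a monic equation, absolute values -/
theorem root_le (d : ℕ) (Y t : ℝ) (ht : 1 ≤ t) (hY : 0 ≤ Y) (a : ℕ → ℝ)
    (h : 1 < Y → ∀ P, 0 ≤ P → (∀ i ∈ Finset.range (d + 1), a i ≤ P) →
      Y ^ (d + 1) ≤ t * (P * Y ^ d)) :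
    log⁺ Y ≤ log t + ∑ i ∈ Finset.range (d + 1), log⁺ (a i) := by
  have h0 : 0 ≤ ∑ i ∈ Finset.range (d + 1), log⁺ (a i) :=
    Finset.sum_nonneg fun i _ => posLog_nonneg
  have h1 : 0 ≤ log t := Real.log_nonneg ht
  rcases le_or_gt Y 1 with h2 | h2
  · have h3 : log⁺ Y = 0 := by
      rw [posLog_eq_zero_iff, abs_of_nonneg hY]
      exact h2
    rw [h3]
    positivity
  · have hP := h h2 (exp (∑ i ∈ Finset.range (d + 1), log⁺ (a i))) (exp_pos _).le (fun i hi => by
      refine (Real.le_exp_log (a i)).trans (exp_le_exp.2 ?_)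
      refine (le_max_right 0 (log (a i))).trans ?_
      exact Finset.single_le_sum (f := fun i => log⁺ (a i)) (fun i _ => posLog_nonneg) hi)
    have hY0 : 0 < Y := by linarith
    have h4 : 0 < Y ^ d := by positivity
    have h5 : Y * Y ^ d ≤ (t * exp (∑ i ∈ Finset.range (d + 1), log⁺ (a i))) * Y ^ d := by
      rw [← pow_succ']
      calc Y ^ (d + 1) ≤ _ := hP
        _ = _ := by ring
    have h6 := le_of_mul_le_mul_right h5 h4
    have h7 : log Y ≤ log (t * exp (∑ i ∈ Finset.range (d + 1), log⁺ (a i))) :=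
      Real.log_le_log hY0 h6
    rw [Real.log_mul (by positivity) (exp_ne_zero _), Real.log_exp] at h7
    rw [posLog_eq_log (by rw [abs_of_nonneg hY]; exact h2.le)]
    exact h7

section

variable {K : Type} [Field K] [NumberField K]

theorem fp_supp (z : K) : (Function.support fun v : FinitePlace K => log⁺ (v z)).Finite := by
  by_cases hz : z = 0
  · subst hz
    have : (Function.support fun v : FinitePlace K => log⁺ (v (0 : K))) = ∅ := by
      ext v
      simp [posLog]
    rw [this]; exact Set.finite_empty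
  · exact supp_finite hz _ fun v hv => posLog_eq_zero_of_eq_one hv

theorem fin_sum_le (v : FinitePlace K) (s : Finset ℕ) (f : ℕ → K) (M : ℝ) (hM : 0 ≤ M)
    (h : ∀ i ∈ s, v (f i) ≤ M) : v (∑ i ∈ s, f i) ≤ M := by
  classical
  induction s using Finset.induction_on with
  | empty =>
    rw [Finset.sum_empty]
    have : v (0 : K) = 0 := map_zero v
    rw [this]
    exact hM
  | insert a s ha ih =>
    rw [Finset.sum_insert ha]
    refine (FinitePlace.add_le v _ _).trans (max_le (h a (Finset.mem_insert_self a s)) ?_)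
    exact ih fun i hi => h i (Finset.mem_insert_of_mem hi)

/-- the height of a root of a monic equation -/
theorem height_root (d : ℕ) (c : ℕ → K) (y : K)
    (h : y ^ (d + 1) = ∑ i ∈ Finset.range (d + 1), c i * y ^ i) :
    logHeight₁ y ≤ finrank ℚ K * log ((d + 1 : ℕ) : ℝ) +
      ∑ i ∈ Finset.range (d + 1), logHeight₁ (c i) := by
  have e1 : ∀ φ : K →+* ℂ, log⁺ ‖φ y‖ ≤ log ((d + 1 : ℕ) : ℝ) +
      ∑ i ∈ Finset.range (d + 1), log⁺ ‖φ (c i)‖ := by
    intro φ
    refine root_le d _ _ (by exact_mod_cast Nat.le_add_left 1 d) (norm_nonneg _)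
      (fun i => ‖φ (c i)‖) ?_
    intro hY P hP hc
    have h2 : ‖φ y‖ ^ (d + 1) = ‖φ (∑ i ∈ Finset.range (d + 1), c i * y ^ i)‖ := by
      rw [← h, map_pow, norm_pow]
    rw [h2, map_sum]
    refine (norm_sum_le _ _).trans ?_
    calc ∑ i ∈ Finset.range (d + 1), ‖φ (c i * y ^ i)‖
        ≤ ∑ _i ∈ Finset.range (d + 1), P * ‖φ y‖ ^ d := by
          apply Finset.sum_le_sum
          intro i hi
          rw [map_mul, map_pow, norm_mul, norm_pow]
          have hid : i ≤ d := by
            have := Finset.mem_range.1 hi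
            omega
          exact mul_le_mul (hc i hi) (pow_le_pow_right₀ hY.le hid) (by positivity) hP
      _ = ((d + 1 : ℕ) : ℝ) * (P * ‖φ y‖ ^ d) := by
          rw [Finset.sum_const, Finset.card_range, nsmul_eq_mul]
  have e2 : ∀ v : FinitePlace K, log⁺ (v y) ≤ ∑ i ∈ Finset.range (d + 1), log⁺ (v (c i)) := by
    intro v
    have h1 := root_le d (v y) 1 le_rfl (apply_nonneg v y) (fun i => v (c i)) (by
      intro hY P hP hc
      have h2 : (v y) ^ (d + 1) = v (∑ i ∈ Finset.range (d + 1), c i * y ^ i) := by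
        rw [← h, map_pow]
      rw [h2, one_mul]
      apply fin_sum_le v _ _ _ (by positivity)
      intro i hi
      rw [map_mul, map_pow]
      have hid : i ≤ d := by
        have := Finset.mem_range.1 hi
        omega
      exact mul_le_mul (hc i hi) (pow_le_pow_right₀ hY.le hid) (by positivity) hP)
    rwa [Real.log_one, zero_add] at h1
  have e3 : Fp y ≤ ∑ i ∈ Finset.range (d + 1), Fp (c i) := by
    unfold Fp
    rw [← finsum_sum_comm (Finset.range (d + 1)) _ (fun j _ => fp_supp (c j))]
    apply finsum_le_finsum' (fp_supp y)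
    · have : (Function.support fun v : FinitePlace K =>
          ∑ j ∈ Finset.range (d + 1), log⁺ (v (c j))) ⊆
          ⋃ j ∈ Finset.range (d + 1), Function.support fun v : FinitePlace K =>
            log⁺ (v (c j)) := by
        intro v hv
        rw [Set.mem_iUnion₂]
        by_contra hne
        push Not at hne
        apply hv
        apply Finset.sum_eq_zero
        intro j hj
        have := hne j hj
        rwa [Function.notMem_support] at this
      exact (Set.Finite.biUnion (Finset.finite_toSet _) fun j _ => fp_supp (c j)).subset this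
    · exact e2
  rw [logHeight₁_emb]
  have e4 : ∑ φ : K →+* ℂ, log⁺ ‖φ y‖ ≤ finrank ℚ K * log ((d + 1 : ℕ) : ℝ) +
      ∑ i ∈ Finset.range (d + 1), ∑ φ : K →+* ℂ, log⁺ ‖φ (c i)‖ := by
    refine (Finset.sum_le_sum fun φ _ => e1 φ).trans (le_of_eq ?_)
    rw [Finset.sum_add_distrib, Finset.sum_const, Finset.card_univ, Embeddings.card,
      nsmul_eq_mul, Finset.sum_comm]
  have e5 : ∑ i ∈ Finset.range (d + 1), logHeight₁ (c i) =
      ∑ i ∈ Finset.range (d + 1), ∑ φ : K →+* ℂ, log⁺ ‖φ (c i)‖ +
        ∑ i ∈ Finset.range (d + 1), Fp (c i) := by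
    rw [← Finset.sum_add_distrib]
    exact Finset.sum_congr rfl fun i _ => logHeight₁_emb (c i)
  rw [e5]
  linarith

end

theorem t_HALG : Pool.Agent.Y740.Z.S_HALG := by
  classical
  intro A hA B
  have hlc : A.leadingCoeff ≠ 0 := leadingCoeff_ne_zero.2 hA
  refine ⟨log ((A.natDegree : ℕ) : ℝ) + ∑ i ∈ Finset.range A.natDegree,
    (polBound (A.coeff i) B + polBound A.leadingCoeff B), A.leadingCoeff.roots.toFinset, ?_⟩
  intro s hs y hy hB
  have hs0 : A.leadingCoeff.eval s ≠ 0 := by
    intro h
    apply hs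
    rw [Multiset.mem_toFinset, mem_roots hlc]
    exact h
  -- the equation
  have hev : ∑ i ∈ Finset.range (A.natDegree + 1), (A.coeff i).eval s * y ^ i = 0 := by
    rw [← hy]
    unfold Pool.Agent.Y740.Z.ev
    rw [eval₂_eq_sum_range]
    apply Finset.sum_congr rfl
    intro i _
    congr 1
  rw [Finset.sum_range_succ] at hev
  obtain ⟨K, hK, -, hmem⟩ := exists_galois
    (({s} ∪ {y}) ∪ ⋃ i : Fin (A.natDegree + 1),
      ((fun k => (A.coeff i).coeff k) '' (Finset.range ((A.coeff i).natDegree + 1) : Set ℕ)))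
    (((Set.finite_singleton s).union (Set.finite_singleton y)).union
      (Set.finite_iUnion fun i => (Finset.finite_toSet _).image _))
  have hn := finrank_pos_real (K := K)
  let sK : K := ⟨s, hmem _ (Or.inl (Or.inl rfl))⟩
  let yK : K := ⟨y, hmem _ (Or.inl (Or.inr rfl))⟩
  have hcoef : ∀ i : Fin (A.natDegree + 1), ∀ k ∈ Finset.range ((A.coeff i).natDegree + 1),
      (A.coeff i).coeff k ∈ K := by
    intro i k hk
    apply hmem
    right
    rw [Set.mem_iUnion]
    exact ⟨i, k, hk, rfl⟩
  have hex : ∀ i : ℕ, i ≤ A.natDegree → ∃ a : K, (a : Qb) = (A.coeff i).eval s ∧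
      logHeight₁ a ≤ polBound (A.coeff i) B * finrank ℚ K := by
    intro i hi
    let c : ℕ → K := fun k => if h : k ∈ Finset.range ((A.coeff i).natDegree + 1) then
      ⟨(A.coeff i).coeff k, hcoef ⟨i, by omega⟩ k h⟩ else 0
    have hc : ∀ k ∈ Finset.range ((A.coeff i).natDegree + 1),
        (c k : Qb) = (A.coeff i).coeff k := by
      intro k hk
      simp only [c, dif_pos hk]
    refine ⟨∑ k ∈ Finset.range ((A.coeff i).natDegree + 1), c k * sK ^ k, ?_, ?_⟩
    · rw [eval_eq_sum_range]
      show algebraMap K Qb _ = _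
      rw [map_sum]
      apply Finset.sum_congr rfl
      intro k hk
      rw [map_mul, map_pow]
      have e1 : algebraMap K Qb (c k) = (A.coeff i).coeff k := hc k hk
      have e2 : algebraMap K Qb sK = s := rfl
      rw [e1, e2]
    · apply height_pol (A.coeff i) B K c hc sK
      have h1 := ht_eq (algebraMap K Qb) sK
      have e : algebraMap K Qb sK = s := rfl
      rw [e] at h1
      rw [h1, div_le_iff₀ hn] at hB
      exact hB
  have hex2 : ∀ i : ℕ, ∃ a : K, i ≤ A.natDegree → ((a : Qb) = (A.coeff i).eval s ∧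
      logHeight₁ a ≤ polBound (A.coeff i) B * finrank ℚ K) := by
    intro i
    by_cases hi : i ≤ A.natDegree
    · obtain ⟨a, ha⟩ := hex i hi
      exact ⟨a, fun _ => ha⟩
    · exact ⟨0, fun h => absurd h hi⟩
  choose a ha using hex2
  have had : a A.natDegree ≠ 0 := by
    intro h
    have := (ha A.natDegree le_rfl).1
    rw [h] at this
    exact hs0 this.symm
  -- the degree is positive
  obtain ⟨d, hd⟩ : ∃ d, A.natDegree = d + 1 := by
    rcases Nat.eq_zero_or_pos A.natDegree with h0 | h0
    · exfalso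
      rw [h0] at hev
      simp only [Finset.range_zero, Finset.sum_empty, pow_zero, mul_one, zero_add] at hev
      apply hs0
      rw [leadingCoeff, h0]
      exact hev
    · exact ⟨A.natDegree - 1, by omega⟩
  have heqK : yK ^ (d + 1) = ∑ i ∈ Finset.range (d + 1), (-(a i / a A.natDegree)) * yK ^ i := by
    have h1 : a A.natDegree * yK ^ (d + 1) + ∑ i ∈ Finset.range (d + 1), a i * yK ^ i = 0 := by
      apply (algebraMap K Qb).injective
      rw [map_zero, ← hev, map_add, map_mul, map_pow, map_sum, add_comm, hd]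
      congr 1
      · apply Finset.sum_congr rfl
        intro i hi
        rw [map_mul, map_pow]
        have e1 : algebraMap K Qb (a i) = (A.coeff i).eval s :=
          (ha i (by have := Finset.mem_range.1 hi; omega)).1
        have e2 : algebraMap K Qb yK = y := rfl
        rw [e1, e2]
      · have e1 : algebraMap K Qb (a A.natDegree) = (A.coeff A.natDegree).eval s :=
          (ha _ le_rfl).1
        have e2 : algebraMap K Qb yK = y := rfl
        rw [hd] at e1
        rw [e1, e2]
    have h2 : a A.natDegree * yK ^ (d + 1) =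
        a A.natDegree * ∑ i ∈ Finset.range (d + 1), (-(a i / a A.natDegree)) * yK ^ i := by
      rw [Finset.mul_sum]
      have h3 : ∑ i ∈ Finset.range (d + 1), a A.natDegree * (-(a i / a A.natDegree) * yK ^ i) =
          -∑ i ∈ Finset.range (d + 1), a i * yK ^ i := by
        rw [← Finset.sum_neg_distrib]
        apply Finset.sum_congr rfl
        intro i _
        field_simp
      rw [h3]
      linear_combination h1
    exact mul_left_cancel₀ had h2
  have h1 := height_root d _ yK heqK
  have h2 : ∑ i ∈ Finset.range (d + 1), logHeight₁ (-(a i / a A.natDegree)) ≤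
      ∑ i ∈ Finset.range (d + 1), (polBound (A.coeff i) B + polBound A.leadingCoeff B) *
        finrank ℚ K := by
    apply Finset.sum_le_sum
    intro i hi
    rw [logHeight₁_neg, div_eq_mul_inv, add_mul]
    refine (logHeight₁_mul_le _ _).trans ?_
    rw [logHeight₁_inv]
    exact add_le_add (ha i (by have := Finset.mem_range.1 hi; omega)).2 (ha _ le_rfl).2
  have h3 := ht_eq (algebraMap K Qb) yK
  have e : algebraMap K Qb yK = y := rfl
  rw [e] at h3
  rw [h3, div_le_iff₀ hn, hd, add_mul, Finset.sum_mul]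
  have h4 : (finrank ℚ K : ℝ) * log ((d + 1 : ℕ) : ℝ) = log ((d + 1 : ℕ) : ℝ) * finrank ℚ K :=
    mul_comm _ _
  rw [← h4]
  exact h1.trans (add_le_add le_rfl h2)

end Pool.Agent.Y708.ZF
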